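import Pool.Agent.Helper91.KZ.StL

namespace Pool.Agent.Helper25.KZ

open Pool.Agent.Helper91.KZ Polynomial TensorProduct

universe u

theorem MT2 (h1 : ST_MT1.{u}) : ST_MT2.{u} := by
  intro p i j W _ _ ω hp hω hsc hle K _ _ hcys
  obtain ⟨ι, _, φ, L, hcard, hinj, hhom, hL⟩ := h1 p W ω hp hω j K hcys
  let e : ι ≃ Fin (p * j + 1) := (Fintype.equivFin ι).trans (finCongr hcard)
  obtain ⟨v, hv, hz⟩ := hsc 1 (p * j + 1) p hp.pos (by omega) (fun _ => MvPolynomial.rename e φ)
    (fun _ => hhom.rename_isHomogeneous)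
  have h2 : MvPolynomial.eval (fun a => v (e a)) φ = 0 := by
    have h6 := hz 0
    rw [MvPolynomial.eval_rename] at h6
    exact h6
  have h3 : L (fun a => v (e a)) = 0 := by
    have h4 := hL (fun a => v (e a))
    rw [h2, map_zero] at h4
    exact (pow_eq_zero_iff hp.ne_zero).1 h4
  apply hv
  have h5 : (fun a => v (e a)) = 0 := hinj (by rw [h3, map_zero])
  funext b
  have h7 := congrFun h5 (e.symm b)
  simpa using h7

end Pool.Agent.Helper25.KZ
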